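import Mathlib

namespace Pool.Agent.Results.MP_92d133_al.Tri

/-- the J-preorder -/
def leJ {S : Type} [Semigroup S] (a b : S) : Prop :=
  ∃ u v : WithOne S, (a : WithOne S) = u * b * v

/-- chains of J-classes have bounded size -/
def FinHeight (S : Type) [Semigroup S] : Prop :=
  ∃ N : ℕ, ∀ (n : ℕ) (f : Fin n → S), (∀ i j, i < j → leJ (f i) (f j) ∧ ¬ leJ (f j) (f i)) → n ≤ N

def bm (x y : ℕ × ℕ) : ℕ × ℕ := (x.1 + (y.1 - x.2), y.2 + (x.2 - y.1))

lemma bm_assoc (x y z : ℕ × ℕ) : bm (bm x y) z = bm x (bm y z) := by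
  simp only [bm, Prod.mk.injEq]; omega

inductive S
  | z : S
  | l : ℕ × ℕ → S
  | m : ℕ × ℕ → S
  | r : ℕ × ℕ → S

def mul : S → S → S
  | .l x, .l y => .l (bm x y)
  | .l x, .m y => .m (bm x y)
  | .m x, .r y => .m (bm x y)
  | .r x, .r y => .r (bm x y)
  | _, _ => .z

instance : Semigroup S where
  mul := mul
  mul_assoc a b c := by
    change mul (mul a b) c = mul a (mul b c)
    cases a <;> cases b <;> cases c <;> simp [mul, bm_assoc]

lemma mul_def (a b : S) : a * b = mul a b := rfl

def cls : S → Fin 4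
  | .z => 0
  | .l _ => 1
  | .m _ => 2
  | .r _ => 3

lemma bm_simple (x y : ℕ × ℕ) : x = bm (bm (x.1, y.1) y) (y.2, x.2) := by
  simp [bm]

lemma le_of_cls (a b : S) (h : cls a = cls b) : leJ a b := by
  cases a <;> cases b <;> simp [cls] at h
  · exact ⟨1, 1, by simp⟩
  · rename_i x y
    refine ⟨S.l (x.1, y.1), S.l (y.2, x.2), ?_⟩
    rw [← WithOne.coe_mul, ← WithOne.coe_mul, mul_def, mul_def, mul, mul, ← bm_simple]
  · rename_i x y
    refine ⟨S.l (x.1, y.1), S.r (y.2, x.2), ?_⟩
    rw [← WithOne.coe_mul, ← WithOne.coe_mul, mul_def, mul_def, mul, mul, ← bm_simple]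
  · rename_i x y
    refine ⟨S.r (x.1, y.1), S.r (y.2, x.2), ?_⟩
    rw [← WithOne.coe_mul, ← WithOne.coe_mul, mul_def, mul_def, mul, mul, ← bm_simple]

def B : Subsemigroup S where
  carrier := {a | cls a ≠ 3}
  mul_mem' := by
    intro a b ha hb
    cases a <;> cases b <;> simp_all [cls, mul_def, mul]

def g (j : ℕ) : B := ⟨.m (0, j), by simp [B, cls]⟩

lemma g_le (i j : ℕ) : leJ (g i) (g j) ↔ j ≤ i := by
  constructor
  · rintro ⟨u, v, h⟩
    induction u using WithOne.recOneCoe with
    | one =>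
      induction v using WithOne.recOneCoe with
      | one =>
        simp only [one_mul, mul_one, WithOne.coe_inj, g, Subtype.mk.injEq, S.m.injEq,
          Prod.mk.injEq] at h
        omega
      | coe v =>
        rw [one_mul, ← WithOne.coe_mul, WithOne.coe_inj] at h
        have h' := congrArg Subtype.val h
        obtain ⟨v, hv⟩ := v
        have hv' : cls v ≠ 3 := hv
        cases v <;> simp [g, mul_def, mul, cls] at h' hv'
    | coe u =>
      induction v using WithOne.recOneCoe with
      | one =>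
        rw [mul_one, ← WithOne.coe_mul, WithOne.coe_inj] at h
        have h' := congrArg Subtype.val h
        obtain ⟨u, hu⟩ := u
        cases u <;> simp [g, mul_def, mul, bm] at h'
        omega
      | coe v =>
        rw [← WithOne.coe_mul, ← WithOne.coe_mul, WithOne.coe_inj] at h
        have h' := congrArg Subtype.val h
        obtain ⟨u, hu⟩ := u
        obtain ⟨v, hv⟩ := v
        have hv' : cls v ≠ 3 := hv
        cases u <;> cases v <;> simp [g, mul_def, mul, cls] at h' hv'
  · intro h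
    refine ⟨((⟨.l (0, i - j), by simp [B, cls]⟩ : B) : WithOne B), 1, ?_⟩
    rw [mul_one, ← WithOne.coe_mul, WithOne.coe_inj]
    apply Subtype.ext
    simp [g, mul_def, mul, bm]
    omega

theorem result : ∃ (S : Type) (_ : Semigroup S) (B : Subsemigroup S), FinHeight S ∧
    (B : Set S).Nonempty ∧ (∀ b ∈ B, ∀ s : S, b * s ∈ B ∧ s * b ∈ B) ∧
    (∀ b ∈ B, ∀ b' ∈ B, ∀ s : S, b * s * b' ∈ B) ∧ ¬ FinHeight B := by
  have hI : ∀ b ∈ B, ∀ s : S, b * s ∈ B ∧ s * b ∈ B := by
    intro b hb s
    cases b <;> cases s <;> simp_all [B, cls, mul_def, mul]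
  refine ⟨S, inferInstance, B, ⟨4, fun n f hf => ?_⟩, ⟨_, (g 0).2⟩, hI,
    fun b _ b' hb' s => (hI b' hb' _).2, ?_⟩
  · have : Function.Injective (cls ∘ f) := by
      intro i j h
      by_contra hne
      rcases lt_or_gt_of_ne hne with h' | h'
      · exact (hf i j h').2 (le_of_cls _ _ h.symm)
      · exact (hf j i h').2 (le_of_cls _ _ h)
    simpa using Fintype.card_le_of_injective _ this
  · rintro ⟨N, hN⟩
    have := hN (N + 1) (fun i => g (N - i)) (fun i j hij => by
      rw [g_le, g_le]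
      have : (i : ℕ) < j := hij
      have := j.2
      omega)
    omega

end Pool.Agent.Results.MP_92d133_al.Tri
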